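import Mathlib
import Pool.Agent.Lib.TightTree.Seq

set_option autoImplicit false

namespace Pool.Agent.Results.MP_b4409b_co.ShadowBound

open Pool.Agent.Lib.TightTree

/-- `T` is a tight `r`-tree: a nonempty finite family of `r`-sets which has a proper ordering
`e 0, e 1, ..., e (t - 1)` of its `t` members: for `0 < i < t` some vertex of `e i` lies in no
earlier `e j`, and the other vertices of `e i` all lie in one earlier `e j`. -/
def IsTightTree {W : Type*} [DecidableEq W] (r : ℕ) (T : Finset (Finset W)) : Prop :=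
  T.Nonempty ∧ (∀ s ∈ T, s.card = r) ∧
    ∃ e : ℕ → Finset W, (Finset.range T.card).image e = T ∧
      ∀ i, 0 < i → i < T.card →
        ∃ v ∈ e i, (∀ j, j < i → v ∉ e j) ∧ ∃ j, j < i ∧ e i \ {v} ⊆ e j

/-- The family `H` contains a copy of the family `T`: an injective map on the vertices of the
members of `T` takes every member of `T` to a member of `H`. -/
def Contains {V W : Type*} [DecidableEq V] (H : Finset (Finset V)) (T : Finset (Finset W)) :
    Prop :=
  ∃ f : W → V, Set.InjOn f {x | ∃ s ∈ T, x ∈ s} ∧ ∀ s ∈ T, s.image f ∈ H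

open Classical in
/-- The Turán number: the largest number of edges of an `r`-graph on `n` vertices that contains
no copy of `T`. -/
noncomputable def ex {W : Type*} (r n : ℕ) (T : Finset (Finset W)) : ℕ :=
  ((Finset.univ : Finset (Finset (Finset (Fin n)))).filter
    (fun H => (∀ h ∈ H, h.card = r) ∧ ¬ Contains H T)).sup Finset.card

lemma card_image_rest_le_shadow {V : Type*} [Fintype V] [DecidableEq V] {r : ℕ}
    (H : Finset (Finset V)) (i : Fin r) :
    (((orderings (r := r) H).image (rest i)).card : ℕ) ≤ (r - 1).factorial * H.shadow.card := by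
  classical
  refine Finset.card_le_mul_card_image_of_maps_to (f := fun g => Finset.univ.image g)
    (t := H.shadow) ?_ _ ?_
  · intro g hg
    rw [Finset.mem_image] at hg
    obtain ⟨σ, hσ, rfl⟩ := hg
    simp only [orderings, Finset.mem_filter, Finset.mem_univ, true_and] at hσ
    obtain ⟨hinj, hmem⟩ := hσ
    rw [Finset.mem_shadow_iff]
    refine ⟨_, hmem, σ i, Finset.mem_image_of_mem _ (Finset.mem_univ _), ?_⟩
    ext x
    simp only [Finset.mem_erase, Finset.mem_image, Finset.mem_univ, true_and, rest,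
      Subtype.exists]
    constructor
    · rintro ⟨hx, j, rfl⟩
      exact ⟨j, fun h => hx (by rw [h]), rfl⟩
    · rintro ⟨j, hj, rfl⟩
      exact ⟨fun h => hj (hinj h), j, rfl⟩
  · intro b hb
    have hcard : ∀ g ∈ ((orderings (r := r) H).image (rest i)).filter
        (fun g => Finset.univ.image g = b), Function.Injective g ∧ b.card = r - 1 := by
      intro g hg
      rw [Finset.mem_filter, Finset.mem_image] at hg
      obtain ⟨⟨σ, hσ, rfl⟩, hb'⟩ := hg
      simp only [orderings, Finset.mem_filter, Finset.mem_univ, true_and] at hσ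
      have hinj : Function.Injective (rest i σ) := fun a c hac => Subtype.ext (hσ.1 hac)
      refine ⟨hinj, ?_⟩
      rw [← hb', Finset.card_image_of_injective _ hinj, Finset.card_univ,
        Fintype.card_subtype_compl, Fintype.card_subtype_eq, Fintype.card_fin]
    rcases Finset.eq_empty_or_nonempty (((orderings (r := r) H).image (rest i)).filter
        (fun g => Finset.univ.image g = b)) with h0 | ⟨g₀, hg₀⟩
    · rw [h0]; simp
    have hbc : b.card = r - 1 := (hcard g₀ hg₀).2
    have hc : Fintype.card ({j // j ≠ i} ↪ {x // x ∈ b}) = (r - 1).factorial := by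
      rw [Fintype.card_embedding_eq, Fintype.card_coe, hbc, Fintype.card_subtype_compl,
        Fintype.card_subtype_eq, Fintype.card_fin, Nat.descFactorial_self]
    rw [← hc, ← Fintype.card_coe]
    refine Fintype.card_le_of_injective (fun g =>
      (⟨fun j => ⟨g.1 j, ?_⟩, ?_⟩ : {j // j ≠ i} ↪ {x // x ∈ b})) ?_
    · have h := g.2
      rw [Finset.mem_filter] at h
      have h1 : g.1 j ∈ Finset.univ.image g.1 := Finset.mem_image_of_mem _ (Finset.mem_univ _)
      have h2 : Finset.univ.image g.1 = b := h.2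
      rwa [h2] at h1
    · intro a c hac
      exact (hcard g.1 g.2).1 (congrArg Subtype.val hac)
    · intro g g' hgg
      apply Subtype.ext
      funext j
      have h1 := congrArg (fun f : {j // j ≠ i} ↪ {x // x ∈ b} => (f j : V)) hgg
      exact h1

/-- The shadow bound for tight trees given by a proper ordering of the edges. -/
theorem shadow_bound {W V : Type*} [DecidableEq W] [Fintype V] [DecidableEq V]
    {r : ℕ} (hr : 1 ≤ r) (e : ℕ → Finset W) (t : ℕ) (ht : 1 ≤ t)
    (hcard : ∀ i, i < t → (e i).card = r)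
    (hprop : ∀ i, 0 < i → i < t →
      ∃ v ∈ e i, (∀ j, j < i → v ∉ e j) ∧ ∃ j, j < i ∧ e i \ {v} ⊆ e j)
    (H : Finset (Finset V)) (hH : ∀ h ∈ H, h.card = r)
    (hno : ¬ ∃ f : W → V, Set.InjOn f {x : W | ∃ i, i < t ∧ x ∈ e i} ∧
      ∀ i, i < t → (e i).image f ∈ H) :
    r * H.card ≤ (t - 1) * H.shadow.card := by
  rcases Finset.eq_empty_or_nonempty H with hH0 | ⟨h₀, hh₀⟩
  · subst hH0; simp
  have : Nonempty V := by
    have h1 : 0 < h₀.card := by rw [hH h₀ hh₀]; exact hr
    obtain ⟨x, _⟩ := Finset.card_pos.mp h1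
    exact ⟨x⟩
  obtain ⟨σ, E, N, C, h, hE, hN, hc⟩ := exists_isTT e t ht hcard hprop
  have hinj : ∀ τ ∈ orderings (r := r) H, Function.Injective τ := by
    intro τ hτ
    simp only [orderings, Finset.mem_filter, Finset.mem_univ, true_and] at hτ
    exact hτ.1
  have h1 := card_le (orderings (r := r) H) hinj h (by
    rintro ⟨φ, hφ, hφE⟩
    apply hno
    refine ⟨φ, ?_, ?_⟩
    · intro x hx y hy hxy
      refine hφ ?_ ?_ hxy
      · rcases (hN x).mpr hx with h | ⟨j, hj⟩
        · exact Or.inl h
        · exact Or.inr ⟨j, hj⟩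
      · rcases (hN y).mpr hy with h | ⟨j, hj⟩
        · exact Or.inl h
        · exact Or.inr ⟨j, hj⟩
    · intro i hi
      obtain ⟨τ, hτ, him⟩ := hE i hi
      have := hφE τ hτ
      simp only [orderings, Finset.mem_filter, Finset.mem_univ, true_and] at this
      rw [← him, Finset.image_image]
      exact this.2)
  rw [card_orderings H hH] at h1
  have h2 : ∑ i, C i * ((orderings (r := r) H).image (rest i)).card
      ≤ ∑ i, C i * ((r - 1).factorial * H.shadow.card) := by
    apply Finset.sum_le_sum
    intro i _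
    exact Nat.mul_le_mul_left _ (card_image_rest_le_shadow H i)
  rw [← Finset.sum_mul, h.card] at h2
  have h3 : N.card = t - 1 := by omega
  rw [h3] at h2
  obtain ⟨s, rfl⟩ : ∃ s, r = s + 1 := ⟨r - 1, by omega⟩
  have h4 := h1.trans h2
  rw [Nat.factorial_succ] at h4
  simp only [Nat.add_sub_cancel] at h4
  have hpos : 0 < s.factorial := Nat.factorial_pos s
  have h5 : s.factorial * ((s + 1) * H.card) ≤ s.factorial * ((t - 1) * H.shadow.card) := by
    calc s.factorial * ((s + 1) * H.card) = (s + 1) * s.factorial * H.card := by ring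
      _ ≤ (t - 1) * (s.factorial * H.shadow.card) := h4
      _ = _ := by ring
  exact Nat.le_of_mul_le_mul_left h5 hpos

theorem shadow_le {r n : ℕ} (H : Finset (Finset (Fin n))) (hH : ∀ h ∈ H, h.card = r) :
    H.shadow.card ≤ n.choose (r - 1) := by
  have h1 : H.shadow ⊆ Finset.powersetCard (r - 1) (Finset.univ : Finset (Fin n)) := by
    intro s hs
    rw [Finset.mem_shadow_iff] at hs
    obtain ⟨h, hh, a, ha, rfl⟩ := hs
    rw [Finset.mem_powersetCard]
    exact ⟨Finset.subset_univ _, by rw [Finset.card_erase_of_mem ha, hH h hh]⟩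
  have h2 := Finset.card_le_card h1
  rwa [Finset.card_powersetCard, Finset.card_univ, Fintype.card_fin] at h2

theorem sup_card_le {α : Type*} {F : Finset (Finset α)} (B : ℝ) (hB : 0 ≤ B)
    (h : ∀ H ∈ F, (H.card : ℝ) ≤ B) : ((F.sup Finset.card : ℕ) : ℝ) ≤ B := by
  rcases F.eq_empty_or_nonempty with h0 | hne
  · subst h0
    simpa using hB
  · obtain ⟨H, hH, hHs⟩ := Finset.exists_mem_eq_sup _ hne Finset.card
    rw [hHs]
    exact h H hH

open Classical in
theorem ex_le {W : Type*} {r n : ℕ} {T : Finset (Finset W)} (B : ℝ) (hB : 0 ≤ B)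
    (h : ∀ H : Finset (Finset (Fin n)), (∀ h ∈ H, h.card = r) → ¬ Contains H T →
      (H.card : ℝ) ≤ B) : (ex r n T : ℝ) ≤ B := by
  refine sup_card_le B hB ?_
  intro H hH
  have hH' := (Finset.mem_filter.mp hH).2
  exact h H hH'.1 hH'.2

/-- For every `r ≥ 2` and every tight `r`-tree `T` with `t` edges: every finite `r`-graph `H`
without a copy of `T` satisfies `r |H| ≤ (t - 1) |∂H|`, where `∂H` is the shadow of `H`; and
`ex_r(n, T) ≤ ((t - 1) / r) * C(n, r - 1)` for every `n`. -/
theorem result {W : Type*} [DecidableEq W] (r : ℕ) (hr : 2 ≤ r) (T : Finset (Finset W))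
    (hT : IsTightTree r T) :
    (∀ (V : Type) [Fintype V] [DecidableEq V] (H : Finset (Finset V)),
      (∀ h ∈ H, h.card = r) → ¬ Contains H T →
        (r : ℝ) * H.card ≤ ((T.card : ℝ) - 1) * H.shadow.card) ∧
    ∀ n : ℕ, (ex r n T : ℝ) ≤ ((T.card : ℝ) - 1) / r * (n.choose (r - 1) : ℝ) := by
  obtain ⟨hne, hTr, e, he, hprop⟩ := hT
  have ht : 1 ≤ T.card := Finset.card_pos.mpr hne
  have hmem : ∀ i, i < T.card → e i ∈ T := by
    intro i hi
    rw [← he]
    exact Finset.mem_image_of_mem _ (Finset.mem_range.mpr hi)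
  have hcast : ((T.card - 1 : ℕ) : ℝ) = (T.card : ℝ) - 1 := by
    rw [Nat.cast_sub ht]; simp
  have key : ∀ (V : Type) [Fintype V] [DecidableEq V] (H : Finset (Finset V)),
      (∀ h ∈ H, h.card = r) → ¬ Contains H T →
        (r : ℝ) * H.card ≤ ((T.card : ℝ) - 1) * H.shadow.card := by
    intro V _ _ H hH hno
    have h1 := shadow_bound (by omega : 1 ≤ r) e T.card ht (fun i hi => hTr _ (hmem i hi)) hprop
      H hH (by
        rintro ⟨f, hf, hfe⟩
        apply hno
        refine ⟨f, ?_, ?_⟩
        · intro x hx y hy hxy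
          have hx' : ∃ i, i < T.card ∧ x ∈ e i := by
            obtain ⟨s, hs, hxs⟩ := hx
            rw [← he, Finset.mem_image] at hs
            obtain ⟨i, hi, rfl⟩ := hs
            exact ⟨i, Finset.mem_range.mp hi, hxs⟩
          have hy' : ∃ i, i < T.card ∧ y ∈ e i := by
            obtain ⟨s, hs, hys⟩ := hy
            rw [← he, Finset.mem_image] at hs
            obtain ⟨i, hi, rfl⟩ := hs
            exact ⟨i, Finset.mem_range.mp hi, hys⟩
          exact hf hx' hy' hxy
        · intro s hs
          rw [← he, Finset.mem_image] at hs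
          obtain ⟨i, hi, rfl⟩ := hs
          exact hfe i (Finset.mem_range.mp hi))
    rw [← hcast]
    exact_mod_cast h1
  refine ⟨key, ?_⟩
  intro n
  have hrpos : (0 : ℝ) < r := by exact_mod_cast (by omega : 0 < r)
  have hle : ∀ H : Finset (Finset (Fin n)), (∀ h ∈ H, h.card = r) → ¬ Contains H T →
      (H.card : ℝ) ≤ ((T.card : ℝ) - 1) / r * (n.choose (r - 1) : ℝ) := by
    intro H hH hno
    have h1 := key (Fin n) H hH hno
    have h2 : (H.shadow.card : ℝ) ≤ (n.choose (r - 1) : ℝ) := by
      exact_mod_cast shadow_le H hH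
    have h3 : (0 : ℝ) ≤ (T.card : ℝ) - 1 := by
      rw [← hcast]; exact Nat.cast_nonneg _
    have h4 := h1.trans (mul_le_mul_of_nonneg_left h2 h3)
    rw [div_mul_eq_mul_div, le_div_iff₀ hrpos]
    linarith
  have hB : (0 : ℝ) ≤ ((T.card : ℝ) - 1) / r * (n.choose (r - 1) : ℝ) := by
    have h3 : (0 : ℝ) ≤ (T.card : ℝ) - 1 := by
      rw [← hcast]; exact Nat.cast_nonneg _
    positivity
  exact ex_le _ hB hle

end Pool.Agent.Results.MP_b4409b_co.ShadowBound
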